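import Pool.Agent.Run7.h6.FE.Main

/-- All continuous solutions of `f (x + f x) = f x + f (f x)`. -/
theorem Pool.Agent.Results.MP_12983e_an.Classification.result
    (f : ℝ → ℝ) (hf : Continuous f) :
    (∀ x : ℝ, f (x + f x) = f x + f (f x)) ↔
      (∃ a : ℝ, ∀ x : ℝ, f x = a * x) ∨
        (∃ α β : ℝ, 0 ≤ α ∧ 0 ≤ β ∧ ∀ x : ℝ, f x = α * max x 0 + β * min x 0) :=
  Run7.h6.FE.classification f hf
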